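import Mathlib

namespace Pool.Agent.Helper46.GenNum

open Equiv Equiv.Perm

/-- The product of two adjacent transpositions (a three-cycle). -/
def adj3 {N : ℕ} (j : ZMod N) : Perm (ZMod N) := swap j (j + 1) * swap (j + 1) (j + 2)

theorem adjPair_mem {N : ℕ} [NeZero N] (D : Subgroup (Perm (ZMod N)))
    (hD : ∀ j : ZMod N, adj3 j ∈ D) (j k : ZMod N) :
    swap j (j + 1) * swap k (k + 1) ∈ D := by
  have h : ∀ n : ℕ, swap j (j + 1) * swap (j + n) (j + n + 1) ∈ D := by
    intro n
    induction n with
    | zero => simp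
    | succ n ih =>
      have h1 := hD (j + n)
      unfold adj3 at h1
      have h2 := D.mul_mem ih h1
      have e : (swap j (j + 1) * swap (j + n) (j + n + 1)) *
          (swap (j + n) (j + n + 1) * swap (j + n + 1) (j + n + 2)) =
          swap j (j + 1) * swap (j + n + 1) (j + n + 2) := by
        rw [mul_assoc, swap_mul_self_mul]
      rw [e] at h2
      have e2 : j + ((n + 1 : ℕ) : ZMod N) = j + n + 1 := by push_cast; ring
      have e3 : j + n + 1 + 1 = j + (n : ZMod N) + 2 := by ring
      rw [e2, e3]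
      exact h2
  have := h (k - j).val
  rw [ZMod.natCast_zmod_val] at this
  have e : j + (k - j) = k := by ring
  rwa [e] at this

theorem closure_adj_swaps {N : ℕ} [NeZero N] :
    Subgroup.closure (Set.range fun j : ZMod N => swap j (j + 1)) = ⊤ := by
  rw [eq_top_iff, ← closure_isSwap, Subgroup.closure_le]
  rintro σ ⟨a, b, -, rfl⟩
  have h : ∀ n : ℕ, swap a (a + n) ∈ Subgroup.closure (Set.range fun j : ZMod N => swap j (j + 1)) := by
    intro n
    induction n with
    | zero =>
      rw [Nat.cast_zero, add_zero, swap_self]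
      exact Subgroup.one_mem _
    | succ n ih =>
      refine SubmonoidClass.swap_mem_trans _ ih ?_
      have e2 : a + ((n + 1 : ℕ) : ZMod N) = a + n + 1 := by push_cast; ring
      rw [e2]
      exact Subgroup.subset_closure ⟨a + n, rfl⟩
  have := h (b - a).val
  rw [ZMod.natCast_zmod_val] at this
  have e : a + (b - a) = b := by ring
  rwa [e] at this

theorem ne_add_one {N : ℕ} (hN : 2 ≤ N) (j : ZMod N) : j ≠ j + 1 := by
  intro h
  have h1 : (1 : ZMod N) = 0 := by
    have := congrArg (fun z => z - j) h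
    simpa using this.symm
  have : Fact (1 < N) := ⟨hN⟩
  exact one_ne_zero h1

theorem even_mem_of_adj {N : ℕ} [NeZero N] (hN : 2 ≤ N) (D : Subgroup (Perm (ZMod N)))
    (hD : ∀ j : ZMod N, adj3 j ∈ D) (σ : Perm (ZMod N)) (hσ : sign σ = 1) : σ ∈ D := by
  have hne : ∀ j : ZMod N, j ≠ j + 1 := ne_add_one hN
  have key : ∀ σ : Perm (ZMod N), (sign σ = 1 ∧ σ ∈ D) ∨ (sign σ = -1 ∧ σ * swap 0 1 ∈ D) := by
    intro σ
    have hs : σ ∈ Subgroup.closure (Set.range fun j : ZMod N => swap j (j + 1)) := by
      rw [closure_adj_swaps]; trivial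
    have step : ∀ (τ : Perm (ZMod N)) (j : ZMod N),
        ((sign τ = 1 ∧ τ ∈ D) ∨ (sign τ = -1 ∧ τ * swap 0 1 ∈ D)) →
        ((sign (τ * swap j (j + 1)) = 1 ∧ τ * swap j (j + 1) ∈ D) ∨
          (sign (τ * swap j (j + 1)) = -1 ∧ τ * swap j (j + 1) * swap 0 1 ∈ D)) := by
      intro τ j h
      rcases h with ⟨h1, h2⟩ | ⟨h1, h2⟩
      · right
        refine ⟨by rw [Perm.sign_mul, h1, sign_swap (hne j), one_mul], ?_⟩
        rw [mul_assoc]
        have := adjPair_mem D hD j 0
        rw [zero_add] at this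
        exact D.mul_mem h2 this
      · left
        refine ⟨by rw [Perm.sign_mul, h1, sign_swap (hne j)]; simp, ?_⟩
        have := adjPair_mem D hD 0 j
        rw [zero_add] at this
        have h3 := D.mul_mem h2 this
        rwa [mul_assoc, swap_mul_self_mul] at h3
    induction hs using Subgroup.closure_induction_right with
    | one => left; exact ⟨map_one _, D.one_mem⟩
    | mul_right τ _ y hy ih =>
      obtain ⟨j, rfl⟩ := hy
      exact step τ j ih
    | mul_inv_cancel τ _ y hy ih =>
      obtain ⟨j, rfl⟩ := hy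
      simp only [swap_inv]
      exact step τ j ih
  rcases key σ with h | h
  · exact h.2
  · rw [hσ] at h
    exact absurd h.1 (by decide)

/-- Translation by one. -/
def shift (N : ℕ) : Perm (ZMod N) := Equiv.addRight 1

theorem shift_apply {N : ℕ} (p : ZMod N) : shift N p = p + 1 := rfl

theorem shift_pow_apply {N : ℕ} (m : ℕ) (p : ZMod N) : (shift N ^ m) p = p + m := by
  induction m generalizing p with
  | zero => simp
  | succ m ih =>
    rw [pow_succ, Perm.mul_apply, ih, shift_apply]
    push_cast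
    ring

theorem conj_adj3 {N : ℕ} (m : ℕ) (j : ZMod N) :
    shift N ^ m * adj3 j * (shift N ^ m)⁻¹ = adj3 (j + (m : ZMod N)) := by
  unfold adj3
  have h : ∀ a b : ZMod N, shift N ^ m * swap a b * (shift N ^ m)⁻¹ = swap (a + m) (b + m) := by
    intro a b
    rw [← swap_apply_apply, shift_pow_apply, shift_pow_apply]
  have e : shift N ^ m * (swap j (j + 1) * swap (j + 1) (j + 2)) * (shift N ^ m)⁻¹ =
      (shift N ^ m * swap j (j + 1) * (shift N ^ m)⁻¹) *
      (shift N ^ m * swap (j + 1) (j + 2) * (shift N ^ m)⁻¹) := by group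
  rw [e, h, h]
  congr 2 <;> ring

/-- The key identity among three-cycles on five points. -/
theorem five_points {α : Type*} [DecidableEq α] {a b c d e : α}
    (hab : a ≠ b) (hac : a ≠ c) (had : a ≠ d) (hae : a ≠ e) (hbc : b ≠ c) (hbd : b ≠ d)
    (hbe : b ≠ e) (hcd : c ≠ d) (hce : c ≠ e) (hde : d ≠ e) (y y' z : Perm α)
    (hy : y = swap c d * swap d e) (hy' : y' = swap a b * swap b c)
    (hz : z = y' * y * y'⁻¹ * y⁻¹) : y = z * z * (y * z⁻¹ * y⁻¹) := by
  subst hz hy hy'
  ext p
  simp only [mul_inv_rev, swap_inv, Perm.mul_apply]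
  by_cases h1 : p = a
  · subst h1; simp [swap_apply_def, *, Ne.symm]
  by_cases h2 : p = b
  · subst h2; simp [swap_apply_def, *, Ne.symm]
  by_cases h3 : p = c
  · subst h3; simp [swap_apply_def, *, Ne.symm]
  by_cases h4 : p = d
  · subst h4; simp [swap_apply_def, *, Ne.symm]
  by_cases h5 : p = e
  · subst h5; simp [swap_apply_def, *, Ne.symm]
  simp [swap_apply_def, *]

end Pool.Agent.Helper46.GenNum
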