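import Mathlib

namespace Pool.Agent.Helper46.GenNum

/-- A finite group with an element `t` embeds into the cycle `ZMod N` so that right multiplication
by `t` is translation by one for all but few points. -/
theorem exists_embedding (Γ : Type) [Group Γ] [Finite Γ] (t : Γ) (N : ℕ) (hN : Nat.card Γ ≤ N) :
    ∃ ι : Γ ↪ ZMod N, {p : Γ | ι (p * t) ≠ ι p + 1}.ncard * orderOf t ≤ Nat.card Γ := by
  classical
  set n := orderOf t with hn
  have hn0 : 0 < n := orderOf_pos t
  set H := Subgroup.zpowers t with hH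
  have hex : ∀ p : Γ, ∃ j : ℕ, j < n ∧ (Quotient.out (QuotientGroup.mk p : Γ ⧸ H)) * t ^ j = p := by
    intro p
    have h1 : (Quotient.out (QuotientGroup.mk p : Γ ⧸ H))⁻¹ * p ∈ H := by
      rw [← QuotientGroup.eq]
      exact Quotient.out_eq _
    rw [hH, mem_zpowers_iff_mem_range_orderOf, Finset.mem_image] at h1
    obtain ⟨j, hj, hj2⟩ := h1
    refine ⟨j, by simpa using hj, ?_⟩
    rw [hj2, mul_inv_cancel_left]
  choose j hj1 hj2 using hex
  have e := Finite.equivFin (Γ ⧸ H)
  set τ := Nat.card (Γ ⧸ H) with hτ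
  have hcard : τ * n = Nat.card Γ := by
    rw [hτ, hn, ← Nat.card_zpowers, ← hH]
    exact (Subgroup.card_eq_card_quotient_mul_card_subgroup H).symm
  let ι0 : Γ → ℕ := fun p => n * (e (QuotientGroup.mk p)).val + j p
  have hlt : ∀ p, ι0 p < Nat.card Γ := by
    intro p
    have h1 := (e (QuotientGroup.mk p)).isLt
    have h2 := hj1 p
    rw [← hcard]
    calc n * (e (QuotientGroup.mk p)).val + j p < n * (e (QuotientGroup.mk p)).val + n := by omega
      _ = n * ((e (QuotientGroup.mk p)).val + 1) := by ring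
      _ ≤ n * τ := Nat.mul_le_mul_left _ h1
      _ = τ * n := Nat.mul_comm _ _
  have hinj0 : Function.Injective ι0 := by
    intro p p' h
    have h1 : (e (QuotientGroup.mk p)).val = (e (QuotientGroup.mk p')).val := by
      have h3 : ι0 p / n = (e (QuotientGroup.mk p)).val := by
        show (n * (e (QuotientGroup.mk p)).val + j p) / n = _
        rw [Nat.mul_add_div hn0, Nat.div_eq_of_lt (hj1 p), add_zero]
      have h4 : ι0 p' / n = (e (QuotientGroup.mk p')).val := by
        show (n * (e (QuotientGroup.mk p')).val + j p') / n = _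
        rw [Nat.mul_add_div hn0, Nat.div_eq_of_lt (hj1 p'), add_zero]
      rw [← h3, ← h4, h]
    have h2 : j p = j p' := by
      have : n * (e (QuotientGroup.mk p)).val + j p = n * (e (QuotientGroup.mk p')).val + j p' := h
      rw [h1] at this
      omega
    have h3 : (QuotientGroup.mk p : Γ ⧸ H) = QuotientGroup.mk p' := e.injective (Fin.ext h1)
    rw [← hj2 p, ← hj2 p', h3, h2]
  have hinj : Function.Injective (fun p => ((ι0 p : ℕ) : ZMod N)) := by
    intro p p' h
    apply hinj0
    simp only at h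
    rw [ZMod.natCast_eq_natCast_iff', Nat.mod_eq_of_lt ((hlt p).trans_le hN),
      Nat.mod_eq_of_lt ((hlt p').trans_le hN)] at h
    exact h
  refine ⟨⟨_, hinj⟩, ?_⟩
  have hmk : ∀ p : Γ, (QuotientGroup.mk (p * t) : Γ ⧸ H) = QuotientGroup.mk p := by
    intro p
    rw [eq_comm, QuotientGroup.eq]
    have : p⁻¹ * (p * t) = t := by group
    rw [this]
    exact Subgroup.mem_zpowers t
  have hsub : {p : Γ | ((ι0 (p * t) : ℕ) : ZMod N) ≠ ((ι0 p : ℕ) : ZMod N) + 1} ⊆
      {p : Γ | j p = n - 1} := by
    intro p hp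
    simp only [Set.mem_ofPred_eq] at hp ⊢
    by_contra hne
    apply hp
    have hjlt : j p + 1 < n := by have := hj1 p; omega
    have h1 : t ^ (j (p * t)) = t ^ (j p + 1) := by
      have h2 := hj2 (p * t)
      rw [hmk p] at h2
      have h3 := hj2 p
      rw [pow_succ]
      have h4 : Quotient.out (QuotientGroup.mk p : Γ ⧸ H) * t ^ (j (p * t)) =
          Quotient.out (QuotientGroup.mk p : Γ ⧸ H) * (t ^ (j p) * t) := by
        rw [h2, ← mul_assoc, h3]
      exact mul_left_cancel h4
    have h2 : j (p * t) = j p + 1 := by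
      have := (pow_inj_mod.mp h1)
      rw [← hn, Nat.mod_eq_of_lt (hj1 _), Nat.mod_eq_of_lt hjlt] at this
      exact this
    have h3 : ι0 (p * t) = ι0 p + 1 := by
      show n * (e (QuotientGroup.mk (p * t))).val + j (p * t) = _
      rw [hmk p, h2]
      rfl
    rw [h3]
    push_cast
    ring
  have hle : {p : Γ | j p = n - 1}.ncard ≤ τ := by
    have h1 : {p : Γ | j p = n - 1}.ncard ≤ (Set.univ : Set (Γ ⧸ H)).ncard := by
      apply Set.ncard_le_ncard_of_injOn (fun p => (QuotientGroup.mk p : Γ ⧸ H))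
      · intro p _; trivial
      · intro p hp p' hp' h
        simp only [Set.mem_ofPred_eq] at hp hp'
        have h' : (QuotientGroup.mk p : Γ ⧸ H) = QuotientGroup.mk p' := h
        rw [← hj2 p, ← hj2 p', h', hp, hp']
    rwa [Set.ncard_univ] at h1
  calc _ ≤ τ * n := by
        apply Nat.mul_le_mul_right
        exact (Set.ncard_le_ncard hsub (Set.toFinite _)).trans hle
    _ = Nat.card Γ := hcard

end Pool.Agent.Helper46.GenNum
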