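import Mathlib
import Pool.Agent.Helper46.GenNum.Adjacent

namespace Pool.Agent.Helper46.GenNum

open Equiv Equiv.Perm

theorem sign_eq_one_of_odd {α : Type*} [DecidableEq α] [Fintype α] (c : Perm α) (k : ℕ) (hk : Odd k)
    (h : c ^ k = 1) : sign c = 1 := by
  have h1 : (sign c) ^ k = 1 := by rw [← map_pow, h, map_one]
  rcases Int.units_eq_one_or (sign c) with h2 | h2
  · exact h2
  · rw [h2, hk.neg_one_pow] at h1
    exact absurd h1 (by decide)

theorem natCast_ne {M u v : ℕ} (hu : u < M) (hv : v < M) (huv : u ≠ v) :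
    (u : ZMod M) ≠ (v : ZMod M) := by
  intro h
  rw [ZMod.natCast_eq_natCast_iff'] at h
  rw [Nat.mod_eq_of_lt hu, Nat.mod_eq_of_lt hv] at h
  exact huv h

theorem shift_pow_self (N : ℕ) : shift N ^ N = 1 := by
  ext p
  rw [shift_pow_apply]
  simp

theorem sign_shift {N : ℕ} [NeZero N] (hN : Odd N) : sign (shift N) = 1 :=
  sign_eq_one_of_odd _ N hN (shift_pow_self N)

theorem sign_adj3 {N : ℕ} [NeZero N] (hN : 2 ≤ N) (j : ZMod N) : sign (adj3 j) = 1 := by
  unfold adj3
  have h2 : j + 1 ≠ j + 2 := by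
    have := ne_add_one hN (j + 1)
    have e : j + 1 + 1 = j + 2 := by ring
    rwa [e] at this
  rw [Perm.sign_mul, sign_swap (ne_add_one hN j), sign_swap h2]
  simp

theorem swap_commute {α : Type*} [DecidableEq α] {a b c d : α} (hac : a ≠ c) (had : a ≠ d)
    (hbc : b ≠ c) (hbd : b ≠ d) : Commute (swap a b) (swap c d) := by
  have h := mul_swap_eq_swap_mul (swap a b) c d
  rw [swap_apply_of_ne_of_ne hac.symm hbc.symm, swap_apply_of_ne_of_ne had.symm hbd.symm] at h
  exact h

theorem comm_adj3 {M : ℕ} (m : ℕ) (h3 : 3 ≤ m) (hm : m + 2 < M) :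
    Commute (adj3 (m : ZMod M)) (adj3 0) := by
  unfold adj3
  have e1 : (m : ZMod M) + 1 = ((m + 1 : ℕ) : ZMod M) := by push_cast; ring
  have e2 : (m : ZMod M) + 2 = ((m + 2 : ℕ) : ZMod M) := by push_cast; ring
  have e0 : (0 : ZMod M) = ((0 : ℕ) : ZMod M) := by simp
  have e3 : (0 : ZMod M) + 1 = ((1 : ℕ) : ZMod M) := by push_cast; ring
  have e4 : (0 : ZMod M) + 2 = ((2 : ℕ) : ZMod M) := by push_cast; ring
  rw [e1, e2, e3, e4, e0]
  have hs : ∀ u v w z : ℕ, u < M → v < M → w < M → z < M → u ≠ w → u ≠ z → v ≠ w → v ≠ z →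
      Commute (swap (u : ZMod M) (v : ZMod M)) (swap (w : ZMod M) (z : ZMod M)) := by
    intro u v w z hu hv hw hz h1 h2 h3 h4
    exact swap_commute (natCast_ne hu hw h1) (natCast_ne hu hz h2) (natCast_ne hv hw h3)
      (natCast_ne hv hz h4)
  refine Commute.mul_left (Commute.mul_right ?_ ?_) (Commute.mul_right ?_ ?_) <;>
  · apply hs <;> omega

theorem adj3_identity {N : ℕ} (h5 : 5 ≤ N) (y y' z : Perm (ZMod N)) (hy : y = adj3 0)
    (hy' : y' = adj3 (((N - 2 : ℕ)) : ZMod N)) (hz : z = y' * y * y'⁻¹ * y⁻¹) :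
    y = z * z * (y * z⁻¹ * y⁻¹) := by
  have e0 : (0 : ZMod N) = ((0 : ℕ) : ZMod N) := by simp
  have e1 : (0 : ZMod N) + 1 = ((1 : ℕ) : ZMod N) := by push_cast; ring
  have e2 : (0 : ZMod N) + 2 = ((2 : ℕ) : ZMod N) := by push_cast; ring
  have e3 : ((N - 2 : ℕ) : ZMod N) + 1 = ((N - 1 : ℕ) : ZMod N) := by
    have : N - 1 = (N - 2) + 1 := by omega
    rw [this]; push_cast; ring
  have e4 : ((N - 2 : ℕ) : ZMod N) + 2 = ((0 : ℕ) : ZMod N) := by
    have h : ((N - 2 : ℕ) : ZMod N) + 2 = ((N - 2 + 2 : ℕ) : ZMod N) := by push_cast; ring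
    rw [h]
    have : N - 2 + 2 = N := by omega
    rw [this]; simp
  have hne : ∀ u v : ℕ, u < N → v < N → u ≠ v → (u : ZMod N) ≠ (v : ZMod N) :=
    fun u v hu hv huv => natCast_ne hu hv huv
  refine five_points (a := ((N - 2 : ℕ) : ZMod N)) (b := ((N - 1 : ℕ) : ZMod N))
    (c := ((0 : ℕ) : ZMod N)) (d := ((1 : ℕ) : ZMod N)) (e := ((2 : ℕ) : ZMod N))
    ?_ ?_ ?_ ?_ ?_ ?_ ?_ ?_ ?_ ?_ y y' z ?_ ?_ hz
  any_goals (apply hne <;> omega)
  · rw [hy]; unfold adj3; rw [e1, e2, ← e0]
  · rw [hy']; unfold adj3; rw [e3, e4]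

section

variable (N : ℕ → ℕ)

/-- The sequence of full cycles. -/
def seqX : ∀ i, Perm (ZMod (N i)) := fun i => shift (N i)

/-- The sequence of three-cycles. -/
def seqY : ∀ i, Perm (ZMod (N i)) := fun _ => adj3 0

/-- The group generated by the cycles and the three-cycles. -/
def grpA : Subgroup (∀ i, Perm (ZMod (N i))) := Subgroup.closure {seqX N, seqY N}

theorem seqX_mem : seqX N ∈ grpA N := Subgroup.subset_closure (by simp)

theorem seqY_mem : seqY N ∈ grpA N := Subgroup.subset_closure (by simp)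

theorem grpA_even (h5 : ∀ i, 5 ≤ N i) (hodd : ∀ i, Odd (N i)) [∀ i, NeZero (N i)]
    (g : ∀ i, Perm (ZMod (N i))) (hg : g ∈ grpA N) (i : ℕ) : sign (g i) = 1 := by
  unfold grpA at hg
  induction hg using Subgroup.closure_induction with
  | mem g hg =>
    rcases hg with rfl | hg
    · exact sign_shift (hodd i)
    · rw [Set.mem_singleton_iff] at hg
      subst hg
      exact sign_adj3 (by have := h5 i; omega) 0
  | one => simp
  | mul a b _ _ ha hb => rw [Pi.mul_apply, Perm.sign_mul, ha, hb, one_mul]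
  | inv a _ ha => rw [Pi.inv_apply, Perm.sign_inv, ha]

theorem seqX_pow_apply (m : ℕ) (i : ℕ) : (seqX N ^ m) i = shift (N i) ^ m := rfl

theorem finsupp_mem (hmono : StrictMono N) (h5 : ∀ i, 5 ≤ N i) (hodd : ∀ i, Odd (N i))
    [∀ i, NeZero (N i)] (n : ℕ) :
    ∀ f : ∀ i, Perm (ZMod (N i)), (∀ j, sign (f j) = 1) → (∀ j, n ≤ j → f j = 1) → f ∈ grpA N := by
  induction n with
  | zero =>
    intro f _ h
    have : f = 1 := by funext j; exact h j (Nat.zero_le j)
    rw [this]; exact Subgroup.one_mem _
  | succ n ih =>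
    -- first: all even permutations at coordinate `n`
    have hP : ∀ c : Perm (ZMod (N n)), sign c = 1 → Pi.mulSingle n c ∈ grpA N := by
      intro c hc
      set D : Subgroup (Perm (ZMod (N n))) :=
        (grpA N).comap (MonoidHom.mulSingle (fun i => Perm (ZMod (N i))) n) with hDdef
      have hD : ∀ c, c ∈ D ↔ Pi.mulSingle n c ∈ grpA N := fun c => Iff.rfl
      have hconj : ∀ (g : ∀ i, Perm (ZMod (N i))) (c : Perm (ZMod (N n))), g ∈ grpA N →
          c ∈ D → g n * c * (g n)⁻¹ ∈ D := by
        intro g c hg hc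
        rw [hD] at hc ⊢
        have e : Pi.mulSingle n (g n * c * (g n)⁻¹) = g * Pi.mulSingle n c * g⁻¹ := by
          funext j
          by_cases hj : j = n
          · subst hj; simp
          · simp [Pi.mulSingle_eq_of_ne hj]
        rw [e]
        exact Subgroup.mul_mem _ (Subgroup.mul_mem _ hg hc) (Subgroup.inv_mem _ hg)
      -- the commutator
      set m := N n - 2 with hm
      set y' : ∀ i, Perm (ZMod (N i)) := seqX N ^ m * seqY N * (seqX N ^ m)⁻¹ with hy'
      set g : ∀ i, Perm (ZMod (N i)) := y' * seqY N * y'⁻¹ * (seqY N)⁻¹ with hg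
      have hy'A : y' ∈ grpA N := Subgroup.mul_mem _ (Subgroup.mul_mem _
        (Subgroup.pow_mem _ (seqX_mem N) _) (seqY_mem N))
        (Subgroup.inv_mem _ (Subgroup.pow_mem _ (seqX_mem N) _))
      have hgA : g ∈ grpA N := Subgroup.mul_mem _ (Subgroup.mul_mem _ (Subgroup.mul_mem _ hy'A
        (seqY_mem N)) (Subgroup.inv_mem _ hy'A)) (Subgroup.inv_mem _ (seqY_mem N))
      have hy'i : ∀ i, y' i = adj3 ((m : ℕ) : ZMod (N i)) := by
        intro i
        have := conj_adj3 (N := N i) m 0
        rw [zero_add] at this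
        rw [← this]
        rfl
      have hgi : ∀ i, n < i → g i = 1 := by
        intro i hi
        have hlt := hmono hi
        have h5n := h5 n
        have hc : Commute (y' i) (seqY N i) := by
          rw [hy'i]
          exact comm_adj3 m (by omega) (by omega)
        rw [hg]
        simp only [Pi.mul_apply, Pi.inv_apply]
        rw [hc.eq]
        group
      -- kill the lower coordinates
      set z := g n with hz
      have hzD : z ∈ D := by
        rw [hD]
        set f := Function.update g n 1 with hf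
        have hfA : f ∈ grpA N := by
          apply ih
          · intro j
            by_cases hj : j = n
            · subst hj; simp [hf]
            · rw [hf, Function.update_of_ne hj]
              exact grpA_even N h5 hodd g hgA j
          · intro j hj
            by_cases hj' : j = n
            · subst hj'; simp [hf]
            · rw [hf, Function.update_of_ne hj']
              exact hgi j (by omega)
        have e : Pi.mulSingle n z = g * f⁻¹ := by
          funext j
          by_cases hj : j = n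
          · subst hj; simp [hf, hz]
          · simp [Pi.mulSingle_eq_of_ne hj, hf, Function.update_of_ne hj]
        rw [e]
        exact Subgroup.mul_mem _ hgA (Subgroup.inv_mem _ hfA)
      have hyD : adj3 (0 : ZMod (N n)) ∈ D := by
        have hid := adj3_identity (h5 n) (seqY N n) (y' n) z rfl (hy'i n) rfl
        have h1 : seqY N n * z⁻¹ * (seqY N n)⁻¹ ∈ D :=
          hconj (seqY N) z⁻¹ (seqY_mem N) (D.inv_mem hzD)
        have h2 : seqY N n ∈ D := by
          rw [hid]
          exact D.mul_mem (D.mul_mem hzD hzD) h1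
        exact h2
      have hall : ∀ j : ZMod (N n), adj3 j ∈ D := by
        intro j
        have h1 := hconj (seqX N ^ j.val) _ (Subgroup.pow_mem _ (seqX_mem N) _) hyD
        rw [seqX_pow_apply, conj_adj3, zero_add, ZMod.natCast_zmod_val] at h1
        exact h1
      exact even_mem_of_adj (by have := h5 n; omega) D hall c hc
    intro f hf1 hf2
    have e : f = Pi.mulSingle n (f n) * Function.update f n 1 := by
      funext j
      by_cases hj : j = n
      · subst hj; simp
      · simp [Pi.mulSingle_eq_of_ne hj, Function.update_of_ne hj]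
    rw [e]
    refine Subgroup.mul_mem _ (hP _ (hf1 n)) (ih _ ?_ ?_)
    · intro j
      by_cases hj : j = n
      · subst hj; simp
      · rw [Function.update_of_ne hj]; exact hf1 j
    · intro j hj
      by_cases hj' : j = n
      · subst hj'; simp
      · rw [Function.update_of_ne hj']; exact hf2 j (by omega)

end

end Pool.Agent.Helper46.GenNum
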