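import Mathlib
import Pool.Agent.Helper46.GenNum.Neumann

namespace Pool.Agent.Helper46.GenNum

open Equiv Equiv.Perm Filter

/-- The right regular action of a group on itself. -/
def rightAct (Γ : Type) [Group Γ] : Γ →* Perm Γ where
  toFun g := Equiv.mulRight g⁻¹
  map_one' := by ext; simp
  map_mul' a b := by ext; simp [mul_assoc]

/-- Sequences of permutations. -/
abbrev PermSeq (N : ℕ → ℕ) : Type := ∀ i, Perm (ZMod (N i))

/-- Sequences of group elements. -/
abbrev GrpSeq (Γ : ℕ → Type) : Type := ∀ i, Γ i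

section

variable {N : ℕ → ℕ} {Γ : ℕ → Type} [∀ i, Group (Γ i)] (ι : ∀ i, Γ i ↪ ZMod (N i))

/-- The right regular action transported along an embedding. -/
noncomputable def act (i : ℕ) : Γ i →* Perm (ZMod (N i)) :=
  (viaEmbeddingHom (ι i)).comp (rightAct (Γ i))

theorem act_apply (i : ℕ) (g p : Γ i) : act ι i g (ι i p) = ι i (p * g⁻¹) := by
  show (rightAct (Γ i) g).viaEmbedding (ι i) (ι i p) = _
  rw [viaEmbedding_apply]
  rfl

/-- Points where a permutation does not agree with the action of a given group element. -/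
def bad (i : ℕ) (g : Perm (ZMod (N i))) (γ : Γ i) : Set (Γ i) := {p | g (ι i p) ≠ ι i (p * γ⁻¹)}

theorem bad_act (i : ℕ) (γ : Γ i) : bad ι i (act ι i γ) γ = ∅ := by
  ext p
  simp [bad, act_apply]

theorem bad_one_one (i : ℕ) : bad ι i 1 1 = ∅ := by
  ext p
  simp [bad]

variable [∀ i, Finite (Γ i)]

theorem bad_mul (i : ℕ) (g g' : Perm (ZMod (N i))) (γ γ' : Γ i) :
    (bad ι i (g * g') (γ * γ')).ncard ≤ (bad ι i g γ).ncard + (bad ι i g' γ').ncard := by
  have h : bad ι i (g * g') (γ * γ') ⊆ (fun p => p * γ') '' (bad ι i g γ) ∪ bad ι i g' γ' := by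
    intro p hp
    by_contra hn
    rw [Set.mem_union, not_or] at hn
    obtain ⟨h1, h2⟩ := hn
    apply hp
    have h3 : g' (ι i p) = ι i (p * γ'⁻¹) := by
      by_contra h; exact h2 h
    have h4 : g (ι i (p * γ'⁻¹)) = ι i (p * γ'⁻¹ * γ⁻¹) := by
      by_contra h
      exact h1 ⟨p * γ'⁻¹, h, by simp⟩
    rw [Perm.mul_apply, h3, h4, mul_inv_rev, mul_assoc]
  calc (bad ι i (g * g') (γ * γ')).ncard ≤ ((fun p => p * γ') '' (bad ι i g γ) ∪ bad ι i g' γ').ncard :=
        Set.ncard_le_ncard h (Set.toFinite _)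
    _ ≤ ((fun p => p * γ') '' (bad ι i g γ)).ncard + (bad ι i g' γ').ncard := Set.ncard_union_le _ _
    _ ≤ _ := Nat.add_le_add_right (Set.ncard_image_le (Set.toFinite _)) _

theorem bad_inv (i : ℕ) (g : Perm (ZMod (N i))) (γ : Γ i) :
    (bad ι i g⁻¹ γ⁻¹).ncard ≤ (bad ι i g γ).ncard := by
  have h : bad ι i g⁻¹ γ⁻¹ ⊆ (fun p => p * γ⁻¹) '' (bad ι i g γ) := by
    intro p hp
    by_contra hn
    apply hp
    have h4 : g (ι i (p * γ)) = ι i (p * γ * γ⁻¹) := by
      by_contra h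
      exact hn ⟨p * γ, h, by simp⟩
    rw [mul_inv_cancel_right] at h4
    rw [inv_inv, ← h4, Perm.inv_def, Equiv.symm_apply_apply]
  exact (Set.ncard_le_ncard h (Set.toFinite _)).trans (Set.ncard_image_le (Set.toFinite _))

theorem bad_closure (gens : Set (PermSeq N × GrpSeq Γ)) (β : ℕ → ℕ)
    (hgens : ∀ x ∈ gens, ∀ i, (bad ι i (x.1 i) (x.2 i)).ncard ≤ β i)
    (x : PermSeq N × GrpSeq Γ) (hx : x ∈ Subgroup.closure gens) :
    ∃ C : ℕ, ∀ i, (bad ι i (x.1 i) (x.2 i)).ncard ≤ C * β i := by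
  induction hx using Subgroup.closure_induction with
  | mem x hx => exact ⟨1, fun i => by rw [one_mul]; exact hgens x hx i⟩
  | one => exact ⟨0, fun i => by simp [bad_one_one]⟩
  | mul a b _ _ ha hb =>
    obtain ⟨C1, h1⟩ := ha
    obtain ⟨C2, h2⟩ := hb
    refine ⟨C1 + C2, fun i => ?_⟩
    rw [add_mul]
    exact (bad_mul ι i _ _ _ _).trans (Nat.add_le_add (h1 i) (h2 i))
  | inv a _ ha =>
    obtain ⟨C1, h1⟩ := ha
    exact ⟨C1, fun i => (bad_inv ι i _ _).trans (h1 i)⟩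

theorem eventually_one (gens : Set (PermSeq N × GrpSeq Γ)) (β : ℕ → ℕ)
    (hgens : ∀ x ∈ gens, ∀ i, (bad ι i (x.1 i) (x.2 i)).ncard ≤ β i)
    (hβ : ∀ C : ℕ, ∀ᶠ i in atTop, C * β i < Nat.card (Γ i))
    (γ : ∀ i, Γ i) (hγ : ((1, γ) : PermSeq N × GrpSeq Γ) ∈ Subgroup.closure gens) :
    ∀ᶠ i in atTop, γ i = 1 := by
  obtain ⟨C, hC⟩ := bad_closure ι gens β hgens _ hγ
  filter_upwards [hβ C] with i hi
  by_contra hne
  have h1 : bad ι i 1 (γ i) = Set.univ := by
    ext p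
    simp [bad, hne]
  have h2 := hC i
  have h3 : (bad ι i ((1 : PermSeq N) i) (γ i)) = Set.univ := h1
  simp only at h2
  rw [h3, Set.ncard_univ] at h2
  omega

theorem transfer (gens : Set (PermSeq N × GrpSeq Γ)) (β : ℕ → ℕ)
    (hgens : ∀ x ∈ gens, ∀ i, (bad ι i (x.1 i) (x.2 i)).ncard ≤ β i)
    (hfin : gens.Finite)
    (hβ : ∀ C : ℕ, ∀ᶠ i in atTop, C * β i < Nat.card (Γ i))
    (S : Finset (PermSeq N))
    (hS : Subgroup.closure (S : Set (PermSeq N)) = Subgroup.closure (Prod.fst '' gens)) :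
    ∀ᶠ i in atTop, ∃ R : Finset (Γ i), R.card ≤ S.card ∧
      ∀ x ∈ gens, x.2 i ∈ Subgroup.closure (R : Set (Γ i)) := by
  classical
  have hmap : Subgroup.closure (Prod.fst '' gens) = (Subgroup.closure gens).map (MonoidHom.fst (PermSeq N) (GrpSeq Γ)) := by
    rw [MonoidHom.map_closure]; rfl
  have hlift : ∀ s : PermSeq N, ∃ γ : GrpSeq Γ, s ∈ S → ((s, γ) : PermSeq N × GrpSeq Γ) ∈ Subgroup.closure gens := by
    intro s
    by_cases hs : s ∈ S
    · have h1 : s ∈ Subgroup.closure (S : Set (PermSeq N)) := Subgroup.subset_closure hs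
      rw [hS, hmap] at h1
      obtain ⟨x, hx1, hx2⟩ := h1
      refine ⟨x.2, fun _ => ?_⟩
      have : ((s, x.2) : PermSeq N × GrpSeq Γ) = x := by
        rw [← hx2]; rfl
      rw [this]; exact hx1
    · exact ⟨1, fun h => absurd h hs⟩
  choose lft hlft using hlift
  set T : Set (PermSeq N × GrpSeq Γ) := (fun s => ((s, lft s) : PermSeq N × GrpSeq Γ)) '' (S : Set (PermSeq N)) with hT
  have hTle : Subgroup.closure T ≤ Subgroup.closure gens := by
    rw [Subgroup.closure_le]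
    rintro _ ⟨s, hs, rfl⟩
    exact hlft s hs
  have hTmap : (Subgroup.closure T).map (MonoidHom.fst (PermSeq N) (GrpSeq Γ)) = Subgroup.closure (Prod.fst '' gens) := by
    rw [MonoidHom.map_closure, ← hS]
    congr 1
    rw [hT, Set.image_image]
    simp
  have hev : ∀ x ∈ gens, ∀ᶠ i in atTop, x.2 i ∈
      Subgroup.closure ((fun s => lft s i) '' (S : Set (PermSeq N))) := by
    intro x hx
    have h1 : x.1 ∈ (Subgroup.closure T).map (MonoidHom.fst (PermSeq N) (GrpSeq Γ)) := by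
      rw [hTmap]
      exact Subgroup.subset_closure ⟨x, hx, rfl⟩
    obtain ⟨y, hy1, hy2⟩ := h1
    have h2 : ((1, x.2 * y.2⁻¹) : PermSeq N × GrpSeq Γ) ∈ Subgroup.closure gens := by
      have h3 := Subgroup.mul_mem _ (Subgroup.subset_closure hx : x ∈ Subgroup.closure gens)
        (Subgroup.inv_mem _ (hTle hy1))
      have h4 : x * y⁻¹ = ((1, x.2 * y.2⁻¹) : PermSeq N × GrpSeq Γ) := by
        refine Prod.ext ?_ rfl
        have : y.1 = x.1 := hy2
        rw [Prod.fst_mul, Prod.fst_inv, this, mul_inv_cancel]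
      rwa [h4] at h3
    filter_upwards [eventually_one ι gens β hgens hβ _ h2] with i hi
    have h5 : x.2 i = y.2 i := by
      rw [Pi.mul_apply, Pi.inv_apply, mul_inv_eq_one] at hi
      exact hi
    rw [h5]
    have h6 : y.2 i ∈ (Subgroup.closure T).map ((Pi.evalMonoidHom Γ i).comp (MonoidHom.snd (PermSeq N) (GrpSeq Γ))) :=
      ⟨y, hy1, rfl⟩
    rw [MonoidHom.map_closure, hT, Set.image_image] at h6
    exact h6
  have hall : ∀ᶠ i in atTop, ∀ x ∈ gens, x.2 i ∈
      Subgroup.closure ((fun s => lft s i) '' (S : Set (PermSeq N))) := by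
    rw [Set.Finite.eventually_all hfin]
    exact hev
  filter_upwards [hall] with i hi
  refine ⟨S.image (fun s => lft s i), Finset.card_image_le, ?_⟩
  intro x hx
  rw [Finset.coe_image]
  exact hi x hx

end

end Pool.Agent.Helper46.GenNum
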