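import Mathlib
import Pool.Agent.Helper46.GenNum.Transfer

namespace Pool.Agent.Helper46.GenNum

open Equiv Equiv.Perm Filter

theorem quotient_gen {N : ℕ → ℕ} (hmono : StrictMono N) (h5 : ∀ i, 5 ≤ N i) (hodd : ∀ i, Odd (N i))
    [∀ i, NeZero (N i)] {k : ℕ} {Q : Type} [Group Q] [Finite Q] (G : Subgroup (PermSeq N))
    (f : G →* Q) (hf : Function.Surjective f) (x y t s s' : G) (m : Fin k → G)
    (hx : (x : PermSeq N) = seqX N) (hy : (y : PermSeq N) = seqY N)
    (heven : ∀ g ∈ G, ∀ i, sign (g i) = 1)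
    (hcomm : ∀ e : ℕ, 2 ≤ e → ∃ n0, ∀ i, n0 ≤ i →
      Commute ((s : PermSeq N) i) (((t ^ e * s' * (t ^ e)⁻¹ : G) : PermSeq N) i))
    (hinv : ∀ a, (s * s' * s⁻¹ * s'⁻¹) * m a * (s * s' * s⁻¹ * s'⁻¹)⁻¹ = (m a)⁻¹)
    (hm3 : ∀ a, m a ^ 3 = 1)
    (hgen : Subgroup.closure (({x, y, t, s, s'} : Set G) ∪ Set.range m) = ⊤) :
    Subgroup.closure ({f x, f y, f t, f s, f s'} : Set Q) = ⊤ := by
  set H := Subgroup.closure ({f x, f y, f t, f s, f s'} : Set Q) with hH
  -- the finitely supported elements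
  let K : Subgroup G :=
    { carrier := {g | ∃ n, ∀ i, n ≤ i → (g : PermSeq N) i = 1}
      mul_mem' := by
        rintro a b ⟨n, hn⟩ ⟨n', hn'⟩
        refine ⟨max n n', fun i hi => ?_⟩
        have h1 := hn i (le_trans (le_max_left _ _) hi)
        have h2 := hn' i (le_trans (le_max_right _ _) hi)
        show (a : PermSeq N) i * (b : PermSeq N) i = 1
        rw [h1, h2, one_mul]
      one_mem' := ⟨0, fun i _ => rfl⟩
      inv_mem' := by
        rintro a ⟨n, hn⟩
        refine ⟨n, fun i hi => ?_⟩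
        show ((a : PermSeq N) i)⁻¹ = 1
        rw [hn i hi, inv_one] }
  have hKn : K.Normal := by
    constructor
    rintro a ⟨n, hn⟩ g
    refine ⟨n, fun i hi => ?_⟩
    show (g : PermSeq N) i * (a : PermSeq N) i * ((g : PermSeq N) i)⁻¹ = 1
    rw [hn i hi, mul_one, mul_inv_cancel]
  set L := K.map f with hL
  have hLn : L.Normal := Subgroup.Normal.map hKn f hf
  have hLH : L ≤ H := by
    rintro _ ⟨g, ⟨n, hn⟩, rfl⟩
    have h1 : (g : PermSeq N) ∈ grpA N :=
      finsupp_mem N hmono h5 hodd n g (fun j => heven g g.2 j) hn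
    have h2 : (g : PermSeq N) ∈ (Subgroup.closure {x, y}).map G.subtype := by
      rw [MonoidHom.map_closure]
      have : (G.subtype '' {x, y}) = {seqX N, seqY N} := by
        rw [Set.image_pair]
        simp [hx, hy]
      rw [this]
      exact h1
    obtain ⟨g', hg', he⟩ := h2
    have h3 : g' = g := Subtype.ext he
    rw [h3] at hg'
    have h4 : f g ∈ (Subgroup.closure {x, y}).map f := ⟨g, hg', rfl⟩
    rw [MonoidHom.map_closure, Set.image_pair] at h4
    refine Subgroup.closure_mono ?_ h4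
    intro z hz
    rcases hz with rfl | hz
    · simp
    · rw [Set.mem_singleton_iff] at hz
      subst hz; simp
  -- the commutator dies modulo `L`
  set b := s * s' * s⁻¹ * s'⁻¹ with hb
  have hbL : f b ∈ L := by
    set e := 2 * Nat.card Q with he
    have hpos : 0 < Nat.card Q := Nat.card_pos
    obtain ⟨n0, hn0⟩ := hcomm e (by omega)
    have hte : f (t ^ e) = 1 := by
      rw [map_pow, he, pow_mul', pow_card_eq_one', one_pow]
    set c := t ^ e * s' * (t ^ e)⁻¹ with hc
    have h1 : s * c * s⁻¹ * c⁻¹ ∈ K := by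
      refine ⟨n0, fun i hi => ?_⟩
      have h2 := hn0 i hi
      show (s : PermSeq N) i * (c : PermSeq N) i * ((s : PermSeq N) i)⁻¹ * ((c : PermSeq N) i)⁻¹ = 1
      rw [h2.eq]
      group
    refine ⟨s * c * s⁻¹ * c⁻¹, h1, ?_⟩
    have h3 : f c = f s' := by
      rw [hc, map_mul, map_mul, map_inv, hte]; simp
    rw [hb]
    simp only [map_mul, map_inv, h3]
  have hmL : ∀ a, f (m a) ∈ L := by
    intro a
    have h2 : f b * f (m a) * (f b)⁻¹ = (f (m a))⁻¹ := by
      have := congrArg f (hinv a)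
      rw [map_mul, map_mul, map_inv, map_inv] at this
      exact this
    have h3 : f (m a) * f (m a) ∈ L := by
      have h4 : f (m a) * f (m a) = (f b * (f (m a) * (f b)⁻¹ * (f (m a))⁻¹))⁻¹ := by
        have h5 : f b * (f (m a) * (f b)⁻¹ * (f (m a))⁻¹) = (f (m a))⁻¹ * (f (m a))⁻¹ := by
          rw [← mul_assoc, ← mul_assoc, h2]
        rw [h5, mul_inv_rev, inv_inv]
      rw [h4]
      exact L.inv_mem (L.mul_mem hbL (hLn.conj_mem _ (L.inv_mem hbL) _))
    have h6 : f (m a) ^ 3 = 1 := by rw [← map_pow, hm3, map_one]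
    have h7 : f (m a) = (f (m a) * f (m a))⁻¹ := by
      rw [eq_inv_iff_mul_eq_one, ← h6]
      simp [pow_succ, mul_assoc]
    rw [h7]
    exact L.inv_mem h3
  -- conclusion
  rw [eq_top_iff]
  intro q _
  obtain ⟨g, rfl⟩ := hf q
  have hg : g ∈ Subgroup.closure (({x, y, t, s, s'} : Set G) ∪ Set.range m) := by
    rw [hgen]; trivial
  have h1 : f g ∈ (Subgroup.closure (({x, y, t, s, s'} : Set G) ∪ Set.range m)).map f := ⟨g, hg, rfl⟩
  rw [MonoidHom.map_closure] at h1
  have h2 : Subgroup.closure (f '' (({x, y, t, s, s'} : Set G) ∪ Set.range m)) ≤ H := by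
    rw [Subgroup.closure_le]
    rintro _ ⟨z, hz, rfl⟩
    rcases hz with hz | ⟨a, rfl⟩
    · apply Subgroup.subset_closure
      rcases hz with rfl | rfl | rfl | rfl | hz
      · simp
      · simp
      · simp
      · simp
      · rw [Set.mem_singleton_iff] at hz
        subst hz; simp
    · exact hLH (hmL a)
  exact h2 h1

end Pool.Agent.Helper46.GenNum
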