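import Mathlib
import Pool.Agent.Helper46.GenNum.Quot
import Pool.Agent.Helper46.GenNum.Embed

namespace Pool.Agent.Helper46.GenNum

open Equiv Equiv.Perm Filter

/-- The properties of the groups we construct. -/
structure Good (k : ℕ) (G : Type) [Group G] : Prop where
  fg : Group.FG G
  rf : ∀ g : G, g ≠ 1 → ∃ N : Subgroup G, N.Normal ∧ N.FiniteIndex ∧ g ∉ N
  quot : ∀ (Q : Type) [Group Q] [Finite Q] (f : G →* Q), Function.Surjective f →
        ∃ S : Finset Q, S.card ≤ 5 ∧ Subgroup.closure (S : Set Q) = ⊤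
  noncyc : ∃ (Q : Type) (_ : Group Q) (_ : Finite Q) (f : G →* Q), Function.Surjective f ∧
        ∃ u v : Q, u * v ≠ v * u
  rank : ∀ S : Finset G, Subgroup.closure (S : Set G) = ⊤ → k ≤ 4 * S.card

theorem bad_adj3 {N : ℕ → ℕ} {Γ : ℕ → Type} [∀ i, Group (Γ i)] [∀ i, Finite (Γ i)]
    (ι : ∀ i, Γ i ↪ ZMod (N i)) (i : ℕ) : (bad ι i (adj3 0) 1).ncard ≤ 3 := by
  classical
  have h : bad ι i (adj3 0) 1 ⊆ (ι i) ⁻¹' {0, 1, 2} := by
    intro p hp
    by_contra hn
    apply hp
    simp only [Set.mem_preimage, Set.mem_insert_iff, Set.mem_singleton_iff, not_or] at hn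
    obtain ⟨h0, h1, h2⟩ := hn
    unfold adj3
    rw [zero_add, zero_add, Perm.mul_apply, swap_apply_of_ne_of_ne h1 h2,
      swap_apply_of_ne_of_ne h0 h1, inv_one, mul_one]
  have h2 : ((ι i) ⁻¹' {0, 1, 2}).ncard ≤ ({0, 1, 2} : Set (ZMod (N i))).ncard := by
    apply Set.ncard_le_ncard_of_injOn (ι i)
    · intro p hp; exact hp
    · exact (ι i).injective.injOn
  have h3 : ({0, 1, 2} : Set (ZMod (N i))).ncard ≤ 3 := by
    calc ({0, 1, 2} : Set (ZMod (N i))).ncard ≤ ({1, 2} : Set (ZMod (N i))).ncard + 1 :=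
          Set.ncard_insert_le _ _
      _ ≤ ({2} : Set (ZMod (N i))).ncard + 1 + 1 := Nat.add_le_add_right (Set.ncard_insert_le _ _) _
      _ = 3 := by rw [Set.ncard_singleton]
  exact (Set.ncard_le_ncard h (Set.toFinite _)).trans (h2.trans h3)

theorem assemble (k : ℕ) (Γ : ℕ → Type) [∀ i, Group (Γ i)] [∀ i, Finite (Γ i)]
    (t s s' : ∀ i, Γ i) (m : Fin k → ∀ i, Γ i) (n : ℕ → ℕ) (hn : ∀ i, orderOf (t i) = n i)
    (hnodd : ∀ i, Odd (n i)) (hninf : ∀ C : ℕ, ∀ᶠ i in atTop, C < n i)
    (hs3 : ∀ i, s i ^ 3 = 1) (hs'3 : ∀ i, s' i ^ 3 = 1) (hm3 : ∀ a i, m a i ^ 3 = 1)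
    (hcomm : ∀ e : ℕ, 2 ≤ e → ∃ n0, ∀ i, n0 ≤ i → Commute (s i) (t i ^ e * s' i * (t i ^ e)⁻¹))
    (hinv : ∀ a i, (s i * s' i * (s i)⁻¹ * (s' i)⁻¹) * m a i *
      (s i * s' i * (s i)⁻¹ * (s' i)⁻¹)⁻¹ = (m a i)⁻¹)
    (hrank : ∀ i (R : Finset (Γ i)), (∀ a, m a i ∈ Subgroup.closure (R : Set (Γ i))) →
      k ≤ 4 * R.card) :
    ∃ (G : Type) (_ : Group G), Good k G := by
  classical
  -- the degrees
  let N : ℕ → ℕ := fun i => 2 * (∑ j ∈ Finset.range (i + 1), Nat.card (Γ j)) + 2 * i + 5
  have hmono : StrictMono N := by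
    apply strictMono_nat_of_lt_succ
    intro i
    show 2 * (∑ j ∈ Finset.range (i + 1), Nat.card (Γ j)) + 2 * i + 5 <
      2 * (∑ j ∈ Finset.range (i + 1 + 1), Nat.card (Γ j)) + 2 * (i + 1) + 5
    rw [Finset.sum_range_succ _ (i + 1)]
    omega
  have h5 : ∀ i, 5 ≤ N i := fun i => by show 5 ≤ _ + 5; omega
  have hodd : ∀ i, Odd (N i) := fun i =>
    ⟨(∑ j ∈ Finset.range (i + 1), Nat.card (Γ j)) + i + 2, by show 2 * _ + 2 * i + 5 = _; ring⟩
  have hle : ∀ i, Nat.card (Γ i) ≤ N i := by
    intro i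
    show _ ≤ 2 * (∑ j ∈ Finset.range (i + 1), Nat.card (Γ j)) + 2 * i + 5
    rw [Finset.sum_range_succ]
    omega
  clear_value N
  have : ∀ i, NeZero (N i) := fun i => ⟨by have := h5 i; omega⟩
  have hι : ∀ i, ∃ ι : Γ i ↪ ZMod (N i),
      {p : Γ i | ι (p * t i) ≠ ι p + 1}.ncard * orderOf (t i) ≤ Nat.card (Γ i) :=
    fun i => exists_embedding (Γ i) (t i) (N i) (hle i)
  choose ι hι using hι
  -- generators
  let actS : (∀ i, Γ i) →* PermSeq N := MonoidHom.pi (fun i => (act ι i).comp (Pi.evalMonoidHom Γ i))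
  have hactS : ∀ γ i, actS γ i = act ι i (γ i) := fun γ i => rfl
  let gens : Set (PermSeq N × GrpSeq Γ) :=
    ({(seqX N, t⁻¹), (seqY N, 1), (actS t, t), (actS s, s), (actS s', s')} : Set _) ∪
      Set.range (fun a => (actS (m a), m a))
  have hfin : gens.Finite := Set.Finite.union (by simp) (Set.finite_range _)
  let β : ℕ → ℕ := fun i => {p : Γ i | ι i (p * t i) ≠ ι i p + 1}.ncard + 3
  have hbact : ∀ (γ : ∀ i, Γ i) i, (bad ι i (actS γ i) (γ i)).ncard ≤ β i := by
    intro γ i
    rw [hactS, bad_act]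
    simp
  have hgens : ∀ x ∈ gens, ∀ i, (bad ι i (x.1 i) (x.2 i)).ncard ≤ β i := by
    intro x hx i
    rcases hx with hx | ⟨a, rfl⟩
    · rcases hx with rfl | rfl | rfl | rfl | hx
      · have : bad ι i (seqX N i) ((t⁻¹ : ∀ i, Γ i) i) = {p : Γ i | ι i (p * t i) ≠ ι i p + 1} := by
          ext p
          simp only [bad, Set.mem_ofPred_eq, Pi.inv_apply, inv_inv]
          exact ne_comm
        simp only
        rw [this]
        exact Nat.le_add_right _ _
      · exact (bad_adj3 ι i).trans (Nat.le_add_left _ _)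
      · exact hbact t i
      · exact hbact s i
      · rw [Set.mem_singleton_iff] at hx
        subst hx
        exact hbact s' i
    · exact hbact (m a) i
  have hβ : ∀ C : ℕ, ∀ᶠ i in atTop, C * β i < Nat.card (Γ i) := by
    intro C
    filter_upwards [hninf (4 * C)] with i hi
    by_contra hcon
    rw [not_lt] at hcon
    have h1 := hι i
    rw [hn] at h1
    have h2 : n i ≤ Nat.card (Γ i) := by
      rw [← hn]; exact orderOf_le_card
    have h3 : β i * n i ≤ 4 * Nat.card (Γ i) := by
      show ({p : Γ i | ι i (p * t i) ≠ ι i p + 1}.ncard + 3) * n i ≤ _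
      nlinarith
    have h4 : 0 < Nat.card (Γ i) := Nat.card_pos
    have h5 : Nat.card (Γ i) * n i ≤ (4 * C) * Nat.card (Γ i) := by
      calc Nat.card (Γ i) * n i ≤ (C * β i) * n i := Nat.mul_le_mul_right _ hcon
        _ = C * (β i * n i) := by ring
        _ ≤ C * (4 * Nat.card (Γ i)) := Nat.mul_le_mul_left _ h3
        _ = (4 * C) * Nat.card (Γ i) := by ring
    have h6 : (4 * C) * Nat.card (Γ i) < n i * Nat.card (Γ i) := Nat.mul_lt_mul_of_pos_right hi h4
    nlinarith
  set G : Subgroup (PermSeq N) := Subgroup.closure (Prod.fst '' gens) with hG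
  have hsign_act : ∀ (γ : ∀ i, Γ i) (i : ℕ) (c : ℕ), Odd c → (γ i) ^ c = 1 → sign (actS γ i) = 1 := by
    intro γ i c hc h
    apply sign_eq_one_of_odd _ c hc
    rw [hactS, ← map_pow, h, map_one]
  have heven : ∀ g ∈ G, ∀ i, sign (g i) = 1 := by
    intro g hg i
    induction hg using Subgroup.closure_induction with
    | mem g hg =>
      obtain ⟨x, hx, rfl⟩ := hg
      rcases hx with hx | ⟨a, rfl⟩
      · rcases hx with rfl | rfl | rfl | rfl | hx
        · exact sign_shift (hodd i)
        · exact sign_adj3 (by have := h5 i; omega) 0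
        · apply hsign_act t i (n i) (hnodd i)
          rw [← hn]; exact pow_orderOf_eq_one _
        · exact hsign_act s i 3 (by decide) (hs3 i)
        · rw [Set.mem_singleton_iff] at hx
          subst hx
          exact hsign_act s' i 3 (by decide) (hs'3 i)
      · exact hsign_act (m a) i 3 (by decide) (hm3 a i)
    | one => simp
    | mul a b _ _ ha hb => rw [Pi.mul_apply, Perm.sign_mul, ha, hb, one_mul]
    | inv a _ ha => rw [Pi.inv_apply, Perm.sign_inv, ha]
  have hmemG : ∀ x ∈ gens, x.1 ∈ G := fun x hx => Subgroup.subset_closure ⟨x, hx, rfl⟩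
  let gx : G := ⟨seqX N, hmemG (seqX N, t⁻¹) (by left; simp)⟩
  let gy : G := ⟨seqY N, hmemG (seqY N, 1) (by left; simp)⟩
  let gt : G := ⟨actS t, hmemG (actS t, t) (by left; simp)⟩
  let gs : G := ⟨actS s, hmemG (actS s, s) (by left; simp)⟩
  let gs' : G := ⟨actS s', hmemG (actS s', s') (by left; simp)⟩
  let gm : Fin k → G := fun a => ⟨actS (m a), hmemG (actS (m a), m a) (by right; exact ⟨a, rfl⟩)⟩
  have himg : Prod.fst '' gens = G.subtype '' (({gx, gy, gt, gs, gs'} : Set G) ∪ Set.range gm) := by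
    rw [Set.image_union, Set.image_union, ← Set.range_comp, ← Set.range_comp]
    congr 1
    simp only [Set.image_insert_eq, Set.image_singleton]
    rfl
  have hgen : Subgroup.closure (({gx, gy, gt, gs, gs'} : Set G) ∪ Set.range gm) = ⊤ := by
    apply Subgroup.map_injective G.subtype_injective
    rw [MonoidHom.map_closure, ← himg, ← MonoidHom.range_eq_map, Subgroup.range_subtype]
  refine ⟨G, inferInstance, ?_, ?_, ?_, ?_, ?_⟩
  · -- finitely generated
    rw [Group.fg_iff]
    exact ⟨_, hgen, Set.Finite.union (by simp) (Set.finite_range _)⟩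
  · -- residually finite
    intro g hg
    have h1 : ∃ i, (g : PermSeq N) i ≠ 1 := by
      by_contra hcon
      push Not at hcon
      apply hg
      apply Subtype.ext
      funext i
      exact hcon i
    obtain ⟨i, hi⟩ := h1
    let f : G →* Perm (ZMod (N i)) := (Pi.evalMonoidHom (fun i => Perm (ZMod (N i))) i).comp G.subtype
    refine ⟨f.ker, inferInstance, ?_, ?_⟩
    · exact Subgroup.finiteIndex_ker f
    · intro h
      exact hi h
  · -- finite quotients are generated by five elements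
    intro Q _ _ f hf
    refine ⟨{f gx, f gy, f gt, f gs, f gs'}, Finset.card_le_five, ?_⟩
    have h1 := quotient_gen (k := k) hmono h5 hodd G f hf gx gy gt gs gs' gm rfl rfl heven
      (by
        intro e he
        obtain ⟨n0, hn0⟩ := hcomm e he
        refine ⟨n0, fun i hi => ?_⟩
        have h2 := (hn0 i hi).map (act ι i)
        rw [map_mul, map_mul, map_inv, map_pow] at h2
        exact h2)
      (by
        intro a
        apply Subtype.ext
        funext i
        have h2 := congrArg (act ι i) (hinv a i)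
        rw [map_mul, map_mul, map_inv, map_mul, map_mul, map_mul, map_inv, map_inv, map_inv] at h2
        exact h2)
      (by
        intro a
        apply Subtype.ext
        funext i
        have h2 := congrArg (act ι i) (hm3 a i)
        rw [map_pow, map_one] at h2
        exact h2)
      hgen
    convert h1
    simp
  · -- a noncommutative finite quotient
    let f : G →* Perm (ZMod (N 0)) := (Pi.evalMonoidHom (fun i => Perm (ZMod (N i))) 0).comp G.subtype
    refine ⟨f.range, inferInstance, inferInstance, f.rangeRestrict, f.rangeRestrict_surjective,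
      f.rangeRestrict gx, f.rangeRestrict gy, ?_⟩
    intro h
    have h1 : shift (N 0) * adj3 0 = adj3 0 * shift (N 0) := congrArg Subtype.val h
    have h2 := conj_adj3 (N := N 0) 1 0
    rw [pow_one, h1, mul_inv_cancel_right] at h2
    have h3 := congrArg (fun σ : Perm (ZMod (N 0)) => σ 0) h2
    have e0 : (0 : ZMod (N 0)) = ((0 : ℕ) : ZMod (N 0)) := by simp
    have hne : ∀ u v : ℕ, u < N 0 → v < N 0 → u ≠ v → (u : ZMod (N 0)) ≠ (v : ZMod (N 0)) :=
      fun u v hu hv huv => natCast_ne hu hv huv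
    have h50 := h5 0
    have n1 : (0 : ZMod (N 0)) ≠ 1 := by
      have := hne 0 1 (by omega) (by omega) (by omega); simpa using this
    have n2 : (0 : ZMod (N 0)) ≠ 2 := by
      have := hne 0 2 (by omega) (by omega) (by omega); simpa using this
    have n3 : (0 : ZMod (N 0)) ≠ 3 := by
      have := hne 0 3 (by omega) (by omega) (by omega); simpa using this
    simp only [adj3, Perm.mul_apply, zero_add, Nat.cast_one] at h3
    have e2 : (1 : ZMod (N 0)) + 1 = 2 := by norm_num
    have e3 : (1 : ZMod (N 0)) + 2 = 3 := by norm_num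
    rw [e2, e3, swap_apply_of_ne_of_ne n1 n2, swap_apply_left, swap_apply_of_ne_of_ne n2 n3,
      swap_apply_of_ne_of_ne n1 n2] at h3
    exact n1 h3.symm
  · -- many generators are needed
    intro S hS
    have h1 : Subgroup.closure ((S.image (fun g : G => (g : PermSeq N)) : Finset (PermSeq N)) : Set (PermSeq N)) =
        Subgroup.closure (Prod.fst '' gens) := by
      rw [Finset.coe_image]
      have h2 : (fun g : G => (g : PermSeq N)) '' (S : Set G) = G.subtype '' (S : Set G) := rfl
      rw [h2, ← MonoidHom.map_closure, hS, ← MonoidHom.range_eq_map, Subgroup.range_subtype]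
    obtain ⟨i, R, hR1, hR2⟩ := (transfer ι gens β hgens hfin hβ _ h1).exists
    have h3 := hrank i R (fun a => hR2 (actS (m a), m a) (by right; exact ⟨a, rfl⟩))
    have h4 : (S.image (fun g : G => (g : PermSeq N))).card ≤ S.card := Finset.card_image_le
    omega

end Pool.Agent.Helper46.GenNum
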