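import Mathlib
import Pool.Agent.Helper46.GenNum.Neumann

namespace Pool.Agent.Helper46.GenNum

open Equiv Equiv.Perm Filter

/-- The cyclic group of order three. -/
abbrev W : Type := Multiplicative (ZMod 3)

theorem W_cube (w : W) : w * w * w = 1 := by
  revert w; decide

/-- Functions on `Q` that are inverted by left translation by `b`. -/
abbrev RSet {Q : Type} [Group Q] (b : Q) : Type := {f : Q → W // ∀ x, f (b⁻¹ * x) = (f x)⁻¹}

/-- The wreath product. -/
abbrev Lam (Q : Type) [Group Q] : Type := RegularWreathProduct W Q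

theorem card_fun_le {Q : Type} [Group Q] [Finite Q] (b : Q) (hb : b * b = 1) (hb1 : b ≠ 1) :
    Nat.card (Q → W) ≤ Nat.card (RSet b) ^ 2 := by
  classical
  have e := Finite.equivFin Q
  have hbb : ∀ x, b⁻¹ * (b⁻¹ * x) = x := by
    intro x
    have : b⁻¹ = b := by rw [inv_eq_iff_mul_eq_one]; exact hb
    rw [this, ← mul_assoc, hb, one_mul]
  have hne : ∀ x, b⁻¹ * x ≠ x := by
    intro x h
    apply hb1
    have h2 : b⁻¹ = 1 := by
      have := congrArg (fun z => z * x⁻¹) h
      simpa using this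
    rwa [inv_eq_one] at h2
  let h : Q → Prop := fun x => e x < e (b⁻¹ * x)
  have hh : ∀ x, h (b⁻¹ * x) ↔ ¬ h x := by
    intro x
    show e (b⁻¹ * x) < e (b⁻¹ * (b⁻¹ * x)) ↔ ¬ (e x < e (b⁻¹ * x))
    rw [hbb, not_lt]
    constructor
    · intro h; exact h.le
    · intro h
      exact lt_of_le_of_ne h (fun h' => hne x (e.injective h'))
  let Φ : (Q → W) → RSet b × RSet b := fun f =>
    (⟨fun x => f x * (f (b⁻¹ * x))⁻¹, by
        intro x
        simp only [hbb]
        rw [mul_inv_rev, inv_inv]⟩,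
     ⟨fun x => if h x then f x * f (b⁻¹ * x) else (f x * f (b⁻¹ * x))⁻¹, by
        intro x
        simp only [hbb, hh]
        by_cases hx : h x
        · simp [hx, mul_comm]
        · simp [hx, mul_comm]⟩)
  have hΦ : Function.Injective Φ := by
    intro f g hfg
    have h1 : ∀ x, f x * (f (b⁻¹ * x))⁻¹ = g x * (g (b⁻¹ * x))⁻¹ := by
      intro x
      have := congrArg (fun p => (p.1 : RSet b).1 x) hfg
      exact this
    have h2 : ∀ x, f x * f (b⁻¹ * x) = g x * g (b⁻¹ * x) := by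
      intro x
      have h3 := congrArg (fun p => (p.2 : RSet b).1 x) hfg
      simp only [Φ] at h3
      by_cases hx : h x
      · simp only [hx, if_true] at h3
        exact h3
      · simp only [hx, if_false] at h3
        exact inv_injective h3
    funext x
    have h4 : f x * f x = g x * g x := by
      have e1 : f x * f x = (f x * (f (b⁻¹ * x))⁻¹) * (f x * f (b⁻¹ * x)) := by
        rw [mul_mul_mul_comm, inv_mul_cancel, mul_one]
      have e2 : g x * g x = (g x * (g (b⁻¹ * x))⁻¹) * (g x * g (b⁻¹ * x)) := by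
        rw [mul_mul_mul_comm, inv_mul_cancel, mul_one]
      rw [e1, e2, h1, h2]
    have e3 : ∀ w : W, w = (w * w)⁻¹ := by decide
    rw [e3 (f x), e3 (g x), h4]
  have := Nat.card_le_card_of_injective Φ hΦ
  rwa [Nat.card_prod, ← sq] at this

theorem card_Lam_le {Q : Type} [Group Q] [Finite Q] (b : Q) (hb : b * b = 1) (hb1 : b ≠ 1) :
    Nat.card (Lam Q) ≤ Nat.card (RSet b) ^ 4 := by
  have h1 := card_fun_le b hb hb1
  have hW : Nat.card W = 3 := by
    rw [Nat.card_eq_fintype_card]; rfl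
  have hfun : Nat.card (Q → W) = 3 ^ Nat.card Q := by
    rw [Nat.card_fun, hW]
  rw [RegularWreathProduct.card, hW]
  rw [hfun] at h1
  have h2 : Nat.card Q ≤ 3 ^ Nat.card Q := (Nat.lt_pow_self (by norm_num)).le
  calc 3 ^ Nat.card Q * Nat.card Q ≤ 3 ^ Nat.card Q * 3 ^ Nat.card Q := Nat.mul_le_mul_left _ h2
    _ ≤ Nat.card (RSet b) ^ 2 * Nat.card (RSet b) ^ 2 := Nat.mul_le_mul h1 h1
    _ = Nat.card (RSet b) ^ 4 := by ring

theorem two_le_card_RSet {Q : Type} [Group Q] [Finite Q] (b : Q) (hb : b * b = 1) (hb1 : b ≠ 1) :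
    2 ≤ Nat.card (RSet b) := by
  have h1 := card_fun_le b hb hb1
  have hW : Nat.card W = 3 := by
    rw [Nat.card_eq_fintype_card]; rfl
  have hfun : Nat.card (Q → W) = 3 ^ Nat.card Q := by
    rw [Nat.card_fun, hW]
  rw [hfun] at h1
  have h0 : 0 < Nat.card Q := Nat.card_pos
  have h2 : 3 ^ 1 ≤ 3 ^ Nat.card Q := Nat.pow_le_pow_right (by norm_num) h0
  by_contra h3
  have h4 : Nat.card (RSet b) ≤ 1 := by omega
  have h5 : Nat.card (RSet b) ^ 2 ≤ 1 ^ 2 := Nat.pow_le_pow_left h4 2
  omega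

/-- The finite groups of large rank. -/
abbrev Gam (k : ℕ) {Q : Type} [Group Q] (b : Q) : Type := (Fin k → RSet b) → Lam Q

/-- The base elements. -/
def mElt (k : ℕ) {Q : Type} [Group Q] (b : Q) (a : Fin k) : Gam k b := fun ρ => ⟨(ρ a).1, 1⟩

/-- The top elements. -/
def qElt (k : ℕ) {Q : Type} [Group Q] (b : Q) : Q →* Gam k b :=
  MonoidHom.pi (fun _ => RegularWreathProduct.inl)

theorem rank_lower (k : ℕ) {Q : Type} [Group Q] [Finite Q] (b : Q) (hb : b * b = 1) (hb1 : b ≠ 1)
    (S : Finset (Gam k b)) (hS : ∀ a, mElt k b a ∈ Subgroup.closure (S : Set (Gam k b))) :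
    k ≤ 4 * S.card := by
  classical
  let Ψ : (Fin k → RSet b) → (S → Lam Q) := fun ρ γ => γ.1 ρ
  have hΨ : Function.Injective Ψ := by
    intro ρ ρ' h
    funext a
    have h1 : ∀ γ ∈ Subgroup.closure (S : Set (Gam k b)), γ ρ = γ ρ' := by
      intro γ hγ
      induction hγ using Subgroup.closure_induction with
      | mem x hx => exact congrFun h ⟨x, hx⟩
      | one => rfl
      | mul x y _ _ hx hy => rw [Pi.mul_apply, Pi.mul_apply, hx, hy]
      | inv x _ hx => rw [Pi.inv_apply, Pi.inv_apply, hx]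
    have h2 := h1 _ (hS a)
    apply Subtype.ext
    exact congrArg RegularWreathProduct.left h2
  have h1 := Nat.card_le_card_of_injective Ψ hΨ
  rw [Nat.card_fun, Nat.card_fun, Nat.card_eq_fintype_card (α := Fin k), Fintype.card_fin,
    Nat.card_eq_fintype_card (α := S), Fintype.card_coe] at h1
  have h2 : Nat.card (Lam Q) ^ S.card ≤ Nat.card (RSet b) ^ (4 * S.card) := by
    rw [pow_mul]
    exact Nat.pow_le_pow_left (card_Lam_le b hb hb1) _
  have h3 := h1.trans h2
  exact (Nat.pow_le_pow_iff_right (two_le_card_RSet b hb hb1)).mp h3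

theorem conj_mElt (k : ℕ) {Q : Type} [Group Q] (b : Q) (a : Fin k) :
    qElt k b b * mElt k b a * (qElt k b b)⁻¹ = (mElt k b a)⁻¹ := by
  funext ρ
  show (RegularWreathProduct.inl b : Lam Q) * ⟨(ρ a).1, 1⟩ * (RegularWreathProduct.inl b)⁻¹ =
    (⟨(ρ a).1, 1⟩ : Lam Q)⁻¹
  apply RegularWreathProduct.ext
  · funext x
    simp [RegularWreathProduct.mul_def, (ρ a).2]
  · simp

theorem mElt_cube (k : ℕ) {Q : Type} [Group Q] (b : Q) (a : Fin k) : mElt k b a ^ 3 = 1 := by
  funext ρ
  show (⟨(ρ a).1, 1⟩ : Lam Q) ^ 3 = 1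
  apply RegularWreathProduct.ext
  · funext x
    simp [pow_succ, RegularWreathProduct.mul_def, W_cube]
  · simp [pow_succ]

end Pool.Agent.Helper46.GenNum
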