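import Mathlib
import Pool.Agent.Helper46.GenNum.Neumann

namespace Pool.Agent.Helper46.GenNum

open Equiv Equiv.Perm Filter

theorem four_points {α : Type*} [DecidableEq α] {a b c d : α}
    (hab : a ≠ b) (hac : a ≠ c) (had : a ≠ d) (hbc : b ≠ c) (hbd : b ≠ d) (hcd : c ≠ d)
    (s s' z : Perm α) (hs : s = swap a b * swap b c) (hs' : s' = swap b c * swap c d)
    (hz : z = s * s' * s⁻¹ * s'⁻¹) : z * z = 1 ∧ z a ≠ a := by
  subst hz hs hs'
  constructor
  · ext p
    simp only [mul_inv_rev, swap_inv, Perm.mul_apply]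
    by_cases h1 : p = a
    · subst h1; simp [swap_apply_def, *, Ne.symm]
    by_cases h2 : p = b
    · subst h2; simp [swap_apply_def, *, Ne.symm]
    by_cases h3 : p = c
    · subst h3; simp [swap_apply_def, *, Ne.symm]
    by_cases h4 : p = d
    · subst h4; simp [swap_apply_def, *, Ne.symm]
    simp [swap_apply_def, *]
  · simp only [mul_inv_rev, swap_inv, Perm.mul_apply]
    simp [swap_apply_def, *, Ne.symm]

theorem three_points {α : Type*} [DecidableEq α] {a b c : α}
    (hab : a ≠ b) (hac : a ≠ c) (hbc : b ≠ c) : (swap a b * swap b c) ^ 3 = 1 := by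
  ext p
  simp only [pow_succ, pow_zero, one_mul, Perm.mul_apply]
  by_cases h1 : p = a
  · subst h1; simp [swap_apply_def, *, Ne.symm]
  by_cases h2 : p = b
  · subst h2; simp [swap_apply_def, *, Ne.symm]
  by_cases h3 : p = c
  · subst h3; simp [swap_apply_def, *, Ne.symm]
  simp [swap_apply_def, *]

theorem adj3_cube {N : ℕ} (h3 : 3 ≤ N) (j : ZMod N) : adj3 j ^ 3 = 1 := by
  have h1 : (1 : ZMod N) ≠ 0 := by
    have := natCast_ne (M := N) (u := 1) (v := 0) (by omega) (by omega) (by omega)
    simpa using this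
  have h2 : (2 : ZMod N) ≠ 0 := by
    have := natCast_ne (M := N) (u := 2) (v := 0) (by omega) (by omega) (by omega)
    simpa using this
  unfold adj3
  apply three_points
  · intro h
    apply h1
    have := congrArg (fun z => z - j) h
    simpa using this.symm
  · intro h
    apply h2
    have := congrArg (fun z => z - j) h
    simpa using this.symm
  · intro h
    apply h1
    have := congrArg (fun z => z - (j + 1)) h
    ring_nf at this
    exact this.symm

/-- The double transposition arising as a commutator of two three-cycles. -/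
def dbl (N : ℕ) : Perm (ZMod N) := adj3 0 * adj3 1 * (adj3 0)⁻¹ * (adj3 1)⁻¹

theorem dbl_prop {N : ℕ} (h5 : 5 ≤ N) : dbl N * dbl N = 1 ∧ dbl N ≠ 1 := by
  have e0 : (0 : ZMod N) = ((0 : ℕ) : ZMod N) := by simp
  have e1 : (0 : ZMod N) + 1 = ((1 : ℕ) : ZMod N) := by push_cast; ring
  have e2 : (0 : ZMod N) + 2 = ((2 : ℕ) : ZMod N) := by push_cast; ring
  have e3 : (1 : ZMod N) + 1 = ((2 : ℕ) : ZMod N) := by push_cast; norm_num
  have e4 : (1 : ZMod N) + 2 = ((3 : ℕ) : ZMod N) := by push_cast; norm_num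
  have e5 : (1 : ZMod N) = ((1 : ℕ) : ZMod N) := by push_cast; ring
  have hne : ∀ u v : ℕ, u < N → v < N → u ≠ v → (u : ZMod N) ≠ (v : ZMod N) :=
    fun u v hu hv huv => natCast_ne hu hv huv
  have h := four_points (a := ((0 : ℕ) : ZMod N)) (b := ((1 : ℕ) : ZMod N))
    (c := ((2 : ℕ) : ZMod N)) (d := ((3 : ℕ) : ZMod N))
    (hne _ _ (by omega) (by omega) (by omega)) (hne _ _ (by omega) (by omega) (by omega))
    (hne _ _ (by omega) (by omega) (by omega)) (hne _ _ (by omega) (by omega) (by omega))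
    (hne _ _ (by omega) (by omega) (by omega)) (hne _ _ (by omega) (by omega) (by omega))
    (adj3 0) (adj3 1) (dbl N) (by unfold adj3; rw [e1, e2, ← e0])
    (by unfold adj3; rw [e3, e4, ← e5]) rfl
  refine ⟨h.1, fun h1 => h.2 ?_⟩
  rw [h1]; rfl

end Pool.Agent.Helper46.GenNum
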