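import Mathlib
import Pool.Agent.Helper46.GenNum.Assemble
import Pool.Agent.Helper46.GenNum.Count
import Pool.Agent.Helper46.GenNum.FourPoints

namespace Pool.Agent.Helper46.GenNum

open Equiv Equiv.Perm Filter

theorem exists_good (k : ℕ) : ∃ (G : Type) (_ : Group G), Good k G := by
  have inst : ∀ i : ℕ, NeZero (2 * i + 5) := fun i => ⟨by omega⟩
  have hdbl : ∀ i : ℕ, dbl (2 * i + 5) * dbl (2 * i + 5) = 1 ∧ dbl (2 * i + 5) ≠ 1 :=
    fun i => dbl_prop (by omega)
  have hinl : ∀ (i : ℕ), Function.Injective (qElt k (dbl (2 * i + 5))) := by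
    intro i σ τ h
    have h1 := congrFun h (fun _ => ⟨1, fun _ => by simp⟩)
    exact congrArg RegularWreathProduct.right h1
  refine assemble k (fun i => Gam k (dbl (2 * i + 5)))
    (fun i => qElt k _ (shift (2 * i + 5))) (fun i => qElt k _ (adj3 0))
    (fun i => qElt k _ (adj3 1)) (fun a i => mElt k _ a) (fun i => 2 * i + 5)
    ?_ ?_ ?_ ?_ ?_ ?_ ?_ ?_ ?_
  · -- the order of `t`
    intro i
    rw [orderOf_injective _ (hinl i)]
    rw [orderOf_eq_iff (by omega)]
    refine ⟨shift_pow_self _, ?_⟩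
    intro j hj hj0 h
    have h1 := congrArg (fun σ : Perm (ZMod (2 * i + 5)) => σ 0) h
    simp only [shift_pow_apply, zero_add, Perm.one_apply] at h1
    have h2 := natCast_ne (M := 2 * i + 5) (u := j) (v := 0) hj (by omega) (by omega)
    apply h2
    rw [h1]; simp
  · intro i
    exact ⟨i + 2, by ring⟩
  · intro C
    filter_upwards [eventually_ge_atTop C] with i hi
    omega
  · intro i
    rw [← map_pow, adj3_cube (by omega), map_one]
  · intro i
    rw [← map_pow, adj3_cube (by omega), map_one]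
  · intro a i
    exact mElt_cube k _ a
  · intro e he
    refine ⟨e, fun i hi => ?_⟩
    rw [← map_pow, ← map_mul, ← map_inv, ← map_mul, conj_adj3]
    apply Commute.map
    have h1 : (1 : ZMod (2 * i + 5)) + (e : ZMod (2 * i + 5)) = ((1 + e : ℕ) : ZMod (2 * i + 5)) := by
      push_cast; ring
    rw [h1]
    exact (comm_adj3 (1 + e) (by omega) (by omega)).symm
  · intro a i
    rw [← map_mul, ← map_inv, ← map_inv, ← map_mul, ← map_mul]
    exact conj_mElt k _ a
  · intro i R hR
    exact rank_lower k _ (hdbl i).1 (hdbl i).2 R hR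

theorem closure_comm {Q : Type} [Group Q] (S : Finset Q) (hS : S.card ≤ 1) (u v : Q)
    (h : Subgroup.closure (S : Set Q) = ⊤) : u * v = v * u := by
  have hu : u ∈ Subgroup.closure (S : Set Q) := by rw [h]; trivial
  have hv : v ∈ Subgroup.closure (S : Set Q) := by rw [h]; trivial
  rw [Finset.card_le_one_iff_subset_singleton] at hS
  obtain ⟨q, hq⟩ := hS
  have h1 : Subgroup.closure (S : Set Q) ≤ Subgroup.zpowers q := by
    rw [Subgroup.closure_le]
    intro x hx
    have := hq hx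
    rw [Finset.mem_singleton] at this
    subst this
    exact Subgroup.mem_zpowers _
  obtain ⟨a, rfl⟩ := h1 hu
  obtain ⟨b, rfl⟩ := h1 hv
  exact zpow_mul_comm q a b

theorem main_negation :
    ¬ (∀ n : ℕ, 2 ≤ n → ∃ C : ℕ, ∀ (G : Type) [Group G], Group.FG G →
      (∀ g : G, g ≠ 1 → ∃ N : Subgroup G, N.Normal ∧ N.FiniteIndex ∧ g ∉ N) →
      (∀ (Q : Type) [Group Q] [Finite Q] (f : G →* Q), Function.Surjective f →
        ∃ S : Finset Q, S.card ≤ n ∧ Subgroup.closure (S : Set Q) = ⊤) →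
      (∃ (Q : Type) (_ : Group Q) (_ : Finite Q) (f : G →* Q), Function.Surjective f ∧
        ∀ S : Finset Q, S.card ≤ n - 1 → Subgroup.closure (S : Set Q) ≠ ⊤) →
      ∃ S : Finset G, S.card ≤ C ∧ Subgroup.closure (S : Set G) = ⊤) := by
  classical
  intro hall
  have hall' : ∀ n : ℕ, ∃ C : ℕ, 2 ≤ n → ∀ (G : Type) [Group G], Group.FG G →
      (∀ g : G, g ≠ 1 → ∃ N : Subgroup G, N.Normal ∧ N.FiniteIndex ∧ g ∉ N) →
      (∀ (Q : Type) [Group Q] [Finite Q] (f : G →* Q), Function.Surjective f →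
        ∃ S : Finset Q, S.card ≤ n ∧ Subgroup.closure (S : Set Q) = ⊤) →
      (∃ (Q : Type) (_ : Group Q) (_ : Finite Q) (f : G →* Q), Function.Surjective f ∧
        ∀ S : Finset Q, S.card ≤ n - 1 → Subgroup.closure (S : Set Q) ≠ ⊤) →
      ∃ S : Finset G, S.card ≤ C ∧ Subgroup.closure (S : Set G) = ⊤ := by
    intro n
    by_cases hn : 2 ≤ n
    · obtain ⟨C, hC⟩ := hall n hn
      exact ⟨C, fun _ => hC⟩
    · exact ⟨0, fun h => absurd h hn⟩
  choose C hC using hall'
  set B := ∑ n ∈ Finset.range 6, C n with hB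
  obtain ⟨G, instG, hG⟩ := exists_good (4 * B + 1)
  -- the exact number of generators needed for finite quotients
  let P : ℕ → Prop := fun n => ∀ (Q : Type) [Group Q] [Finite Q] (f : G →* Q), Function.Surjective f →
        ∃ S : Finset Q, S.card ≤ n ∧ Subgroup.closure (S : Set Q) = ⊤
  have hex : ∃ n, P n := ⟨5, hG.quot⟩
  set n := Nat.find hex with hn
  have hPn : P n := Nat.find_spec hex
  have hn5 : n ≤ 5 := Nat.find_min' hex hG.quot
  have hn2 : 2 ≤ n := by
    by_contra hcon
    obtain ⟨Q, iQ, iF, f, hf, u, v, huv⟩ := hG.noncyc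
    obtain ⟨S, hS1, hS2⟩ := hPn Q f hf
    exact huv (closure_comm S (by omega) u v hS2)
  have hmin : ¬ P (n - 1) := Nat.find_min hex (by omega)
  obtain ⟨S, hS1, hS2⟩ := hC n hn2 G hG.fg hG.rf hPn (by
    by_contra hcon
    apply hmin
    intro Q _ _ f hf
    by_contra hcon2
    apply hcon
    refine ⟨Q, inferInstance, inferInstance, f, hf, ?_⟩
    intro S hS hS'
    exact hcon2 ⟨S, hS, hS'⟩)
  have h1 := hG.rank S hS2
  have h2 : C n ≤ B := by
    rw [hB]
    exact Finset.single_le_sum (f := C) (fun _ _ => Nat.zero_le _) (by simp; omega)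
  omega

end Pool.Agent.Helper46.GenNum
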